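import Pool.Agent.Helper22.WC.Main

/-!
# XL (MP_fb29e9_nt, AlmostEverySmoothOval v5): the limit laws are the laws of explicit random sums. Definitions
-/

open MeasureTheory Real Set Filter Topology unitInterval

set_option autoImplicit false

namespace Pool.Agent.Helper22.XL

open Pool.Agent.Helper22.AE
open Pool.Agent.Helper22.AC (cntc)
open Pool.Agent.Helper93.EX (Mx ak prim sn fJ)
open Pool.Agent.Helper22.WC (SupE SupQ LimS PM3)
open Pool.Agent.Helper92.LW (LimF fjk PM2)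
open Pool.Agent.Helper60.AD

/-- the random sum: the main sum with the phases `u k` in place of `R |k| H(k)` -/
noncomputable def Zs (H : ℝ → ℝ) (N : ℕ) (u : {k // k ∈ prim N} → ℝ) (c : ℝ × ℝ) : ℝ :=
  ∑ k : {k // k ∈ prim N}, ak H k.1 * fJ ((N - 1) / sn k.1) (u k + ((k.1.1 : ℝ) * c.1 + (k.1.2 : ℝ) * c.2))

/-- its largest value over all centres -/
noncomputable def ZS (H : ℝ → ℝ) (N : ℕ) (u : {k // k ∈ prim N} → ℝ) : ℝ := ⨆ c : ℝ × ℝ, |Zs H N u c|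

/-- the mean of `φ` of the random sum at the centre `0` over independent uniform phases -/
noncomputable def mF (N : ℕ) (φ : ℝ → ℝ) (H : ℝ → ℝ) : ℝ := ∫ u in Icc (0 : {k // k ∈ prim N} → ℝ) 1, φ (Zs H N u (0, 0))

/-- the same for the largest value over all centres -/
noncomputable def mS (N : ℕ) (φ : ℝ → ℝ) (H : ℝ → ℝ) : ℝ := ∫ u in Icc (0 : {k // k ∈ prim N} → ℝ) 1, φ (ZS H N u)

/-- the frequencies of the primitive vectors are linearly independent over the rationals -/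
def LI (H : ℝ → ℝ) : Prop := ∀ (N : ℕ) (s : {k // k ∈ prim N} → ℤ), ∑ k, (s k : ℝ) * (nk k.1 * H (tk k.1)) = 0 → s = 0

/-- the means of `φ` of the normalized error at the centre `0` (`X` a natural number) are close to the means of `φ` of the random sum -/
def XF (H : ℝ → ℝ) (φ : ℝ → ℝ) : Prop := ∀ n : ℕ, ∃ n0 : ℕ, ∀ N : ℕ, n0 ≤ N → ∃ X₀ : ℕ, ∀ X : ℕ, X₀ + 1 ≤ X →
  |(X : ℝ)⁻¹ * (∫ R in Icc (X : ℝ) (2 * X), φ ((cntc H (0, 0) R - area H * R ^ 2) / sqrt R)) - mF (2 ^ N) φ H| ≤ 1 / ((n : ℝ) + 1)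

/-- the same at the worst centre (rational centres) -/
def XS (H : ℝ → ℝ) (φ : ℝ → ℝ) : Prop := ∀ n : ℕ, ∃ n0 : ℕ, ∀ N : ℕ, n0 ≤ N → ∃ X₀ : ℕ, ∀ X : ℕ, X₀ + 1 ≤ X →
  |(X : ℝ)⁻¹ * (∫ R in Icc (X : ℝ) (2 * X), φ (SupQ H R / sqrt R)) - mS (2 ^ N) φ H| ≤ 1 / ((n : ℝ) + 1)

/-- the moments of the random sum at the worst centre are bounded -/
def BS (J : ℕ) (H : ℝ → ℝ) : Prop := ∃ C : ℕ, ∀ N : ℕ, C ≤ N → mS (2 ^ N) (fun y => y ^ (2 * J)) H ≤ C

/-- all properties -/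
def XP (H : ℝ → ℝ) : Prop := (∀ j K : ℕ, XF H (fjk j K) ∧ XS H (fjk j K)) ∧ ∀ J : ℕ, BS J H

end Pool.Agent.Helper22.XL
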