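import Pool.Agent.Helper22.XL.Defs
import Pool.Agent.Helper92.WC.AsyS

/-!
# XL-H3: the asymptotic formulas with the values of the constants
-/

open MeasureTheory Real Set Filter Topology

set_option autoImplicit false

namespace Pool.Agent.Helper22.XL

open Pool.Agent.Helper22.AE
open Pool.Agent.Helper22.AC (cntc)
open Pool.Agent.Helper22.WC (SupE LimS PM3)
open Pool.Agent.Helper92.LW (Fa Fa_int Fa_nonneg Fa_eq Fa_hb fjk)

/-- the asymptotic formula at the worst centre -/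
theorem asymp_S_val_of {H : ℝ → ℝ} (hH : ContDiff ℝ 2 H) (hp : Function.Periodic H (2 * π)) (hP : Pool.Agent.Helper92.LW.PM2 H)
    (hbdd : ∀ R : ℝ, BddAbove (range fun c : ℝ × ℝ => |cntc H c R - area H * R ^ 2|))
    (hloc : ∀ Y : ℝ, ∃ C : ℝ, ∀ R ∈ Icc 1 Y, 0 ≤ SupE H R ∧ SupE H R ≤ C) (hmeas : Measurable (SupE H))
    {p : ℝ} (hp0 : 0 < p)
    (hid : ∀ R : ℝ, ⨆ c : ℝ × ℝ, ENNReal.ofReal (|cntc H c R - area H * R ^ 2| ^ p) = ENNReal.ofReal (SupE H R ^ p))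
    (hL : LimS H (fun y => |y| ^ p)) :
    ∃ M : ℝ, 0 < M ∧ (∀ d : ℝ, 0 < d → ∃ X₀ : ℝ, 1 ≤ X₀ ∧ ∀ X : ℝ, X₀ ≤ X →
        ∫⁻ R in Icc 1 X, ⨆ c : ℝ × ℝ, ENNReal.ofReal (|cntc H c R - area H * R ^ 2| ^ p) ≠ ⊤ ∧
        |(∫⁻ R in Icc 1 X, ⨆ c : ℝ × ℝ, ENNReal.ofReal (|cntc H c R - area H * R ^ 2| ^ p)).toReal / X ^ (1 + p / 2) - M| ≤ d) ∧
      ∀ ε : ℝ, 0 < ε → ∃ X₀ : ℝ, 1 ≤ X₀ ∧ ∀ X : ℝ, X₀ ≤ X →
        |X⁻¹ * (∫ R in Icc X (2 * X), |SupE H R / sqrt R| ^ p) - (1 + p / 2) * M| ≤ ε := by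
  have hφ : Continuous (fun y : ℝ => |y| ^ p) := continuous_abs.rpow_const fun _ => Or.inr hp0.le
  obtain ⟨F, hF⟩ : ∃ F : ℝ → ℝ, F = fun R => |SupE H R / sqrt R| ^ p := ⟨_, rfl⟩
  have hF0 : ∀ R, 0 ≤ F R := fun R => by
    rw [hF]
    exact Real.rpow_nonneg (abs_nonneg _) _
  have hFm : Measurable F := by
    rw [hF]
    exact hφ.measurable.comp (hmeas.div (by fun_prop))
  have hFb : ∀ Y : ℝ, ∃ C : ℝ, ∀ R ∈ Icc 1 Y, F R ≤ C := by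
    intro Y
    obtain ⟨C, hC⟩ := hloc Y
    refine ⟨C ^ p, fun R hR => ?_⟩
    rw [hF]
    refine Real.rpow_le_rpow (abs_nonneg _) ?_ hp0.le
    have hs : 1 ≤ sqrt R := Real.one_le_sqrt.2 hR.1
    have hs0 : 0 ≤ sqrt R := by linarith
    rw [abs_div, abs_of_nonneg hs0, abs_of_nonneg (hC R hR).1]
    exact (div_le_self (hC R hR).1 hs).trans (hC R hR).2
  have hbi : ∀ {G : ℝ → ℝ} {Y C : ℝ}, Measurable G → (∀ R ∈ Icc 1 Y, 0 ≤ G R ∧ G R ≤ C) → IntegrableOn G (Icc 1 Y) := by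
    intro G Y C hG h
    have : IsFiniteMeasure (volume.restrict (Icc 1 Y)) := ⟨by
      rw [Measure.restrict_apply_univ]
      exact measure_Icc_lt_top⟩
    refine Integrable.of_bound hG.aestronglyMeasurable C ?_
    rw [ae_restrict_iff' measurableSet_Icc]
    exact Eventually.of_forall fun R hR => by
      rw [Real.norm_eq_abs, abs_of_nonneg (h R hR).1]
      exact (h R hR).2
  have hFi : ∀ X : ℝ, IntegrableOn F (Icc 1 X) := by
    intro X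
    obtain ⟨C, hC⟩ := hFb X
    exact hbi hFm fun R hR => ⟨hF0 R, hC R hR⟩
  -- the limit of the means and its comparison with the centre 0
  obtain ⟨m, hm⟩ := hL
  obtain ⟨m1, hm1, hm2⟩ := hP.mean hH hp hp0
  have hcmp : m1 ≤ m := by
    refine le_of_forall_pos_lt_add fun e he => ?_
    obtain ⟨X₁, hX₁, h1⟩ := hm (e / 4) (by positivity)
    obtain ⟨X₂, hX₂, h2⟩ := hm2 (e / 4) (by positivity)
    obtain ⟨X, hX⟩ : ∃ X : ℝ, X = max X₁ X₂ := ⟨_, rfl⟩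
    have hX1 : X₁ ≤ X := by rw [hX]; exact le_max_left _ _
    have hX2 : X₂ ≤ X := by rw [hX]; exact le_max_right _ _
    have hX0 : 0 < X := by linarith
    have hsub : Icc X (2 * X) ⊆ Icc 1 (2 * X) := Icc_subset_Icc_left (by linarith)
    have a1 := (abs_le.1 (h1 X hX1)).2
    have a2 := (abs_le.1 (h2 X hX2 (0, 0))).1
    have a3 : ∫ R in Icc X (2 * X), Fa H p (0, 0) R ≤ ∫ R in Icc X (2 * X), |SupE H R / sqrt R| ^ p := by
      refine setIntegral_mono_on ((Fa_int H hp0 (0, 0) (2 * X)).mono_set hsub) ?_ measurableSet_Icc fun R hR => ?_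
      · have := (hFi (2 * X)).mono_set hsub
        rwa [hF] at this
      · have hR0 : 0 < R := by linarith [hR.1]
        have hs : 0 < sqrt R := Real.sqrt_pos.2 hR0
        unfold Fa
        refine Real.rpow_le_rpow (abs_nonneg _) ?_ hp0.le
        rw [abs_div, abs_div]
        refine div_le_div_of_nonneg_right ?_ (abs_nonneg _)
        exact (le_ciSup (hbdd R) (0, 0)).trans (le_abs_self _)
    have a4 := mul_le_mul_of_nonneg_left a3 (inv_nonneg.2 hX0.le)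
    linarith
  have hmpos : 0 < m := lt_of_lt_of_le hm1 hcmp
  have key := Pool.Agent.Helper81.MM.abel_mean (I := Unit) (F := fun _ => F) (fun _ R => hF0 R) (fun _ X => hFi X) (m := m)
    (by
      intro d hd
      obtain ⟨X₀, h1, h2⟩ := hm d hd
      refine ⟨X₀, h1, fun X hX _ => ?_⟩
      have := h2 X hX
      rw [hF]
      exact this)
    (fun Y => ⟨∫ R in Icc 1 Y, F R, fun _ => le_rfl⟩) (q := p / 2) (by positivity)
  refine ⟨m / (1 + p / 2), by positivity, fun d hd => ?_, ?_⟩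
  swap
  · rw [mul_div_cancel₀ _ (by positivity : (1 + p / 2 : ℝ) ≠ 0)]
    exact hm
  obtain ⟨X₀, hX₀, h2⟩ := key d hd
  refine ⟨X₀, hX₀, fun X hX => ?_⟩
  have hSm : Measurable fun R => SupE H R ^ p := hmeas.pow_const p
  have hSi : IntegrableOn (fun R => SupE H R ^ p) (Icc 1 X) := by
    obtain ⟨C, hC⟩ := hloc X
    exact hbi hSm fun R hR => ⟨Real.rpow_nonneg (hC R hR).1 _, Real.rpow_le_rpow (hC R hR).1 (hC R hR).2 hp0.le⟩
  obtain ⟨C, hC⟩ := hloc X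
  have e1 : ∫⁻ R in Icc 1 X, ⨆ c : ℝ × ℝ, ENNReal.ofReal (|cntc H c R - area H * R ^ 2| ^ p) = ENNReal.ofReal (∫ R in Icc 1 X, SupE H R ^ p) := by
    simp only [hid]
    refine (ofReal_integral_eq_lintegral_ofReal hSi ?_).symm
    rw [EventuallyLE, ae_restrict_iff' measurableSet_Icc]
    exact Eventually.of_forall fun R hR => Real.rpow_nonneg (hC R hR).1 _
  have e2 : ∫ R in Icc 1 X, SupE H R ^ p = ∫ R in Icc 1 X, R ^ (p / 2) * F R := by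
    refine setIntegral_congr_fun measurableSet_Icc fun R hR => ?_
    have hR0 : 0 < R := by linarith [hR.1]
    have hs : 0 < sqrt R := Real.sqrt_pos.2 hR0
    have e : R ^ (p / 2) = sqrt R ^ p := by
      rw [Real.sqrt_eq_rpow, ← Real.rpow_mul hR0.le]
      congr 1
      ring
    simp only [hF]
    rw [e, ← Real.mul_rpow hs.le (abs_nonneg _), abs_div, abs_of_pos hs, mul_div_cancel₀ _ hs.ne', abs_of_nonneg (hC R hR).1]
  have e3 : 0 ≤ ∫ R in Icc 1 X, SupE H R ^ p := setIntegral_nonneg measurableSet_Icc fun R hR => Real.rpow_nonneg (hC R hR).1 _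
  rw [e1]
  refine ⟨ENNReal.ofReal_ne_top, ?_⟩
  rw [ENNReal.toReal_ofReal e3, e2]
  exact h2 X hX ()

/-- the moments at all centres -/
theorem asymp_val {H : ℝ → ℝ} (hP : PM3 H) (hH : ContDiff ℝ 2 H) (hp : Function.Periodic H (2 * π)) {p : ℝ} (hp0 : 0 < p) :
    ∃ M : ℝ, 0 < M ∧ (∀ d : ℝ, 0 < d → ∃ X₀ : ℝ, 1 ≤ X₀ ∧ ∀ X : ℝ, X₀ ≤ X → ∀ a : ℝ × ℝ,
        |(∫ R in Icc 1 X, |cntc H a R - area H * R ^ 2| ^ p) / X ^ (1 + p / 2) - M| ≤ d) ∧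
      ∀ ε : ℝ, 0 < ε → ∃ X₀ : ℝ, 1 ≤ X₀ ∧ ∀ X : ℝ, X₀ ≤ X →
        |X⁻¹ * (∫ R in Icc X (2 * X), |(cntc H (0, 0) R - area H * R ^ 2) / sqrt R| ^ p) - (1 + p / 2) * M| ≤ ε := by
  obtain ⟨m, hm, h1⟩ := hP.1.mean hH hp hp0
  refine ⟨m / (1 + p / 2), by positivity, fun d hd => ?_, fun ε hε => ?_⟩
  · obtain ⟨X₀, hX₀, h2⟩ := Pool.Agent.Helper81.MM.abel_mean (F := Fa H p) (Fa_nonneg H p) (fun a X => Fa_int H hp0 a X) h1 (fun Y => Fa_hb H hp0 Y)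
      (q := p / 2) (by positivity) d hd
    refine ⟨X₀, hX₀, fun X hX a => ?_⟩
    rw [Fa_eq]
    exact h2 X hX a
  · rw [mul_div_cancel₀ _ (by positivity : (1 + p / 2 : ℝ) ≠ 0)]
    obtain ⟨X₀, hX₀, h2⟩ := h1 ε hε
    exact ⟨X₀, hX₀, fun X hX => h2 X hX (0, 0)⟩

/-- the moments at the worst centre -/
theorem asymp_val_S {H : ℝ → ℝ} (hP : PM3 H) (hH : ContDiff ℝ 2 H) (hp : Function.Periodic H (2 * π)) (hr : ∀ θ, 0 < H θ + deriv (deriv H) θ)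
    {p : ℝ} (hp0 : 0 < p) :
    ∃ M : ℝ, 0 < M ∧ (∀ d : ℝ, 0 < d → ∃ X₀ : ℝ, 1 ≤ X₀ ∧ ∀ X : ℝ, X₀ ≤ X →
        ∫⁻ R in Icc 1 X, ⨆ c : ℝ × ℝ, ENNReal.ofReal (|cntc H c R - area H * R ^ 2| ^ p) ≠ ⊤ ∧
        |(∫⁻ R in Icc 1 X, ⨆ c : ℝ × ℝ, ENNReal.ofReal (|cntc H c R - area H * R ^ 2| ^ p)).toReal / X ^ (1 + p / 2) - M| ≤ d) ∧
      ∀ ε : ℝ, 0 < ε → ∃ X₀ : ℝ, 1 ≤ X₀ ∧ ∀ X : ℝ, X₀ ≤ X →
        |X⁻¹ * (∫ R in Icc X (2 * X), |SupE H R / sqrt R| ^ p) - (1 + p / 2) * M| ≤ ε := by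
  obtain ⟨q, hq⟩ := (Pool.Agent.Helper92.WC.pow_growth hp0).2
  obtain ⟨h1, h2, h3, h4⟩ := Pool.Agent.Helper60.WC.supE_facts hH hp hr
  exact asymp_S_val_of hH hp hP.1 h1 h2 h3 hp0 (h4 p hp0)
    (Pool.Agent.Helper85.WC.grow_S hH hp hr hP.2 hP.1.1.1 (Pool.Agent.Helper92.WC.pow_growth hp0).1 (A := 1) (q := q) hq)

end Pool.Agent.Helper22.XL
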