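import Pool.Agent.Helper73.XL.KWM
import Pool.Agent.Helper22.AD.BM

/-!
# XL-E1: the means of the random sum are measurable functions of the series
-/

open MeasureTheory Real Set Filter Topology unitInterval

set_option autoImplicit false

namespace Pool.Agent.Helper22.XL

open Pool.Agent.Helper22.AE
open Pool.Agent.Helper22.AD
open Pool.Agent.Helper93.EX (Mx ak prim sn fJ)
open Pool.Agent.Helper99.WC (FJ FJ_cont fJ_cont99)
open Pool.Agent.Helper73.XL (pt Zs_torus)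

theorem ak_cont {H₀ : ℝ → ℝ} (h0 : ContDiff ℝ 2 H₀) {s : ℕ → ℝ} (hs : Summable (fun l : ℕ => (l : ℝ) ^ 2 * |s l|)) (k : ℤ × ℤ) :
    Continuous fun x : ℕ → I × I => ak (Hx H₀ s x) k := by
  unfold ak rho
  exact continuous_const.mul (Real.continuous_sqrt.comp ((Hx_rho_cont h0 hs).comp (continuous_id.prodMk continuous_const)))

/-- E1, centre 0 -/
theorem mF_meas {H₀ : ℝ → ℝ} (h0 : ContDiff ℝ 2 H₀) (_hp : Function.Periodic H₀ (2 * π)) {s : ℕ → ℝ}
    (hs : Summable (fun l : ℕ => (l : ℝ) ^ 2 * |s l|)) (N : ℕ) {φ : ℝ → ℝ} (hφ : Continuous φ) :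
    Measurable fun x : ℕ → I × I => mF N φ (Hx H₀ s x) := by
  have hc : Continuous fun p : (ℕ → I × I) × ({k // k ∈ prim N} → ℝ) => φ (Zs (Hx H₀ s p.1) N p.2 (0, 0)) := by
    refine hφ.comp ?_
    unfold Zs
    refine continuous_finsetSum _ fun k _ => ((ak_cont h0 hs k.1).comp continuous_fst).mul ((fJ_cont99 _).comp ?_)
    exact ((continuous_apply k).comp continuous_snd).add continuous_const
  unfold mF
  exact (hc.measurable.stronglyMeasurable.integral_prod_right' (ν := volume.restrict (Icc (0 : {k // k ∈ prim N} → ℝ) 1))).measurable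

/-- the random sum as a function of the series and the phases -/
noncomputable def Gx (H₀ : ℝ → ℝ) (s : ℕ → ℝ) (N : ℕ) (p : (ℕ → I × I) × ({k // k ∈ prim N} → ℝ)) (c : UnitAddCircle × UnitAddCircle) : ℝ :=
  |∑ k : {k // k ∈ prim N}, ak (Hx H₀ s p.1) k.1 * FJ ((N - 1) / sn k.1) ((p.2 k : UnitAddCircle) + (k.1.1 • c.1 + k.1.2 • c.2))|

theorem Gx_cont {H₀ : ℝ → ℝ} (h0 : ContDiff ℝ 2 H₀) {s : ℕ → ℝ} (hs : Summable (fun l : ℕ => (l : ℝ) ^ 2 * |s l|)) (N : ℕ) :
    Continuous fun q : ((ℕ → I × I) × ({k // k ∈ prim N} → ℝ)) × (UnitAddCircle × UnitAddCircle) => Gx H₀ s N q.1 q.2 := by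
  unfold Gx
  refine Continuous.abs (continuous_finsetSum _ fun k _ => ((ak_cont h0 hs k.1).comp (continuous_fst.comp continuous_fst)).mul ((FJ_cont _).comp ?_))
  exact ((AddCircle.continuous_mk' (1 : ℝ)).comp ((continuous_apply k).comp (continuous_snd.comp continuous_fst))).add
    (((continuous_zsmul k.1.1).comp (continuous_fst.comp continuous_snd)).add ((continuous_zsmul k.1.2).comp (continuous_snd.comp continuous_snd)))

theorem ZS_cont_x {H₀ : ℝ → ℝ} (h0 : ContDiff ℝ 2 H₀) {s : ℕ → ℝ} (hs : Summable (fun l : ℕ => (l : ℝ) ^ 2 * |s l|)) (N : ℕ) :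
    Continuous fun p : (ℕ → I × I) × ({k // k ∈ prim N} → ℝ) => ZS (Hx H₀ s p.1) N p.2 := by
  have h1 := (isCompact_univ (X := UnitAddCircle × UnitAddCircle)).continuous_sSup (f := Gx H₀ s N) (Gx_cont h0 hs N)
  simp only [image_univ] at h1
  have e : (fun p : (ℕ → I × I) × ({k // k ∈ prim N} → ℝ) => ZS (Hx H₀ s p.1) N p.2) = fun p => sSup (range (Gx H₀ s N p)) := by
    funext p
    rw [Pool.Agent.Helper73.XL.ZS_torus]
    rfl
  rw [e]
  exact h1

/-- E1, worst centre -/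
theorem mS_meas {H₀ : ℝ → ℝ} (h0 : ContDiff ℝ 2 H₀) (_hp : Function.Periodic H₀ (2 * π)) {s : ℕ → ℝ}
    (hs : Summable (fun l : ℕ => (l : ℝ) ^ 2 * |s l|)) (N : ℕ) {φ : ℝ → ℝ} (hφ : Continuous φ) :
    Measurable fun x : ℕ → I × I => mS N φ (Hx H₀ s x) := by
  have hc : Continuous fun p : (ℕ → I × I) × ({k // k ∈ prim N} → ℝ) => φ (ZS (Hx H₀ s p.1) N p.2) := hφ.comp (ZS_cont_x h0 hs N)
  unfold mS
  exact (hc.measurable.stronglyMeasurable.integral_prod_right' (ν := volume.restrict (Icc (0 : {k // k ∈ prim N} → ℝ) 1))).measurable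

end Pool.Agent.Helper22.XL
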